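import Pool.Agent.H64.GG.TC

/-!
# Board rgd_modules, row FROG: the Frobenius substitutions of abelian fields
-/

set_option autoImplicit false

open NumberField
open Pool.Agent.H24.RD Pool.Agent.H29.LG Pool.Agent.H64.GG

namespace Pool.Agent.H79.RGD

/-- the Galois action on the cyclotomic field is commutative -/
lemma comm_CY {m : ℕ} (hm : 0 < m) (σ τ : Om ≃ₐ[ℚ] Om) (y : Om) (hy : y ∈ CY m) :
    σ (τ y) = τ (σ y) := by
  have hroot : ∀ (ρ : Om ≃ₐ[ℚ] Om) (z : Om), z ^ m = 1 → ∃ n : ℕ, ρ z = z ^ n := by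
    intro ρ z hz
    haveI : NeZero m := ⟨hm.ne'⟩
    obtain ⟨n, hn⟩ := map_rootsOfUnity_eq_pow_self ρ (rootsOfUnity.mkOfPowEq z hz)
    exact ⟨n, hn⟩
  unfold CY at hy
  induction hy using IntermediateField.adjoin_induction with
  | mem z hz =>
    obtain ⟨a, ha⟩ := hroot σ z hz
    obtain ⟨b, hb⟩ := hroot τ z hz
    rw [hb, ha, map_pow, map_pow, ha, hb, ← pow_mul, ← pow_mul, mul_comm]
  | algebraMap c => rw [AlgEquiv.commutes, AlgEquiv.commutes, AlgEquiv.commutes]
  | add x y _ _ hx hy => rw [map_add, map_add, map_add, map_add, hx, hy]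
  | inv x _ hx => rw [map_inv₀, map_inv₀, map_inv₀, map_inv₀, hx]
  | mul x y _ _ hx hy => rw [map_mul, map_mul, map_mul, map_mul, hx, hy]

lemma alg_Om : Algebra.IsAlgebraic ℚ Om := AlgebraicClosure.isAlgebraic ℚ

lemma normal_Om : Normal ℚ Om := by
  have := alg_Om
  have : IsAlgClosure ℚ Om := ⟨inferInstance, alg_Om⟩
  exact IsAlgClosure.normal ℚ Om

lemma galois_Om : IsGalois ℚ Om := by
  have h1 := alg_Om
  have h2 := normal_Om
  have h3 : Algebra.IsSeparable ℚ Om := Algebra.IsAlgebraic.isSeparable_of_perfectField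
  exact ⟨⟩

/-- the subfields of the cyclotomic field are normal -/
lemma normal_CY {m : ℕ} (hm : 0 < m) (K : IntermediateField ℚ Om) (hK : K ≤ CY m)
    (τ : Om ≃ₐ[ℚ] Om) (z : Om) (hz : z ∈ K) : τ z ∈ K := by
  have := galois_Om
  rw [← InfiniteGalois.fixedField_fixingSubgroup K]
  rw [IntermediateField.mem_fixedField_iff]
  intro σ hσ
  rw [IntermediateField.mem_fixingSubgroup_iff] at hσ
  rw [comm_CY hm σ τ z (hK hz), hσ z hz]

lemma fin_CY {m : ℕ} (hm : 0 < m) : FiniteDimensional ℚ (CY m) := by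
  classical
  unfold CY
  have h1 : ({z : Om | z ^ m = 1}).Finite := by
    have h2 : {z : Om | z ^ m = 1} ⊆ ((Polynomial.nthRoots m (1 : Om)).toFinset : Set Om) := by
      intro z hz
      simp only [Finset.mem_coe, Multiset.mem_toFinset]
      rw [Polynomial.mem_nthRoots hm]
      exact hz
    exact (Finset.finite_toSet _).subset h2
  have : Finite {z : Om | z ^ m = 1} := h1
  exact IntermediateField.finiteDimensional_adjoin fun x _ =>
    (alg_Om.isAlgebraic x).isIntegral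

theorem pf_FROG (hFRN : Pool.Agent.H29.LG.T_FRN) (hEXTP : Pool.Agent.H29.LG.T_EXTP) : T_FROG := by
  intro K m p δ hm hK hp hδ _ hR
  have hAlg : Algebra.IsAlgebraic ℚ Om := alg_Om
  have hLv : Lv ℚ Om (![] : Fin 0 → ℚ) m 1 = CY m := by
    unfold Lv CY
    congr 1
    ext z
    constructor
    · rintro (h | ⟨i, -⟩)
      · exact h
      · exact i.elim0
    · exact fun h => Or.inl h
  have hnor := normal_CY hm K hK
  obtain ⟨Φ, hΦ⟩ := hFRN ℚ Om 0 ![] (fun i => i.elim0) p m 1 hp hm (one_dvd m) K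
    (hLv ▸ hK) hnor δ hδ hR
  rw [hLv, Module.finrank_self, Nat.factorial_one, pow_one] at hΦ
  refine ⟨Φ, ?_, ?_⟩
  · intro z
    refine ⟨hnor Φ z, fun h => ?_⟩
    have h1 := hnor Φ.symm _ h
    rwa [AlgEquiv.symm_apply_apply] at h1
  intro M _ hKM w hw x x' hx hx'
  have hfC := fin_CY hm
  have hfM : FiniteDimensional ℚ M := inferInstance
  set K0 : IntermediateField ℚ Om := M ⊔ CY m with hK0
  have hfK0 : FiniteDimensional ℚ K0 := IntermediateField.finiteDimensional_sup M (CY m)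
  set M' : IntermediateField ℚ Om := IntermediateField.normalClosure ℚ K0 Om with hM'
  have hNor : Normal ℚ Om := normal_Om
  have hK0M : K0 ≤ M' := IntermediateField.le_normalClosure K0
  have hMM : M ≤ M' := le_sup_left.trans hK0M
  have hCM : CY m ≤ M' := le_sup_right.trans hK0M
  have : FiniteDimensional ℚ M' := inferInstance
  have : NumberField M' := {}
  have : Normal ℚ M' := @normalClosure.normal ℚ K0 Om _ _ _ _ _ hNor
  let _ : Algebra M M' := (IntermediateField.inclusion hMM).toRingHom.toAlgebra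
  have hin : ∀ y : M, ((algebraMap M M' y : M') : Om) = (y : Om) := fun y => rfl
  obtain ⟨w', k, hk, hw'⟩ := hEXTP M M' w
  have hp0 : (algebraMap M M' (p : M) : M') = (p : M') := map_natCast _ p
  have hwp : w'.1 (p : M') = w.1 (p : M) ^ k := by rw [← hp0, hw']
  have hwp1 : w'.1 (p : M') < 1 := by
    rw [hwp]
    exact Real.rpow_lt_one (w.1.nonneg _) hw hk
  have hst : ∀ (τ : Om ≃ₐ[ℚ] Om), ∀ z ∈ M', τ z ∈ M' := by
    intro τ z hz
    have h1 := (IntermediateField.normal_iff_forall_map_le' (K := M')).1 inferInstance τ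
    exact h1 ⟨z, hz, rfl⟩
  obtain ⟨ψ, hψ1, hψ2⟩ := hΦ M' (hK.trans hCM) hCM hst w' hwp1
  obtain ⟨h1, h2⟩ := hψ2 (algebraMap M M' x) (algebraMap M M' x') hx (by
    rw [hin, hin, hψ1 _ (hK hx)]
    exact hx')
  rw [hw', hw'] at h1
  have h3 : w.1 x' = w.1 x := (Real.rpow_left_inj (w.1.nonneg _) (w.1.nonneg _) hk.ne').1 h1
  refine ⟨h3, fun hx1 => ?_⟩
  have h4 : w'.1 (algebraMap M M' x) ≤ 1 := by
    rw [hw']
    exact Real.rpow_le_one (w.1.nonneg _) hx1 hk.le
  have h5 := h2 h4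
  rw [← map_pow, ← map_sub, hw', hwp, ← Real.rpow_mul (w.1.nonneg _), mul_comm k δ,
    Real.rpow_mul (w.1.nonneg _)] at h5
  exact (Real.rpow_le_rpow_iff (w.1.nonneg _) (Real.rpow_nonneg (w.1.nonneg _) _) hk).1 h5

end Pool.Agent.H79.RGD
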