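import Pool.Agent.H79.RGD.FROG

/-!
# Board rgd_modules, row RNKG: the columns
-/

set_option autoImplicit false

open NumberField Height Polynomial
open Pool.Agent.H24.RD Pool.Agent.H29.SX Pool.Agent.H29.LG Pool.Agent.H64.GG

namespace Pool.Agent.H79.RGD

lemma pt_zero {M : Type} [Field M] {r : ℕ} (γ : Fin r → M) (β : M) : pt γ β 0 = 1 := by
  unfold pt
  rw [Pi.zero_apply, zpow_zero, one_mul]
  exact Finset.prod_eq_one fun i _ => by rw [Pi.zero_apply, zpow_zero]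

lemma pt_add {M : Type} [Field M] {r : ℕ} {γ : Fin r → M} {β : M}
    (hγ : ∀ i, γ i ≠ 0) (hβ : β ≠ 0) (a b : Fin (r + 1) → ℤ) :
    pt γ β (a + b) = pt γ β a * pt γ β b := by
  unfold pt
  rw [Pi.add_apply, zpow_add₀ hβ]
  have h1 : ∏ i, γ i ^ ((a + b) i.succ) = (∏ i, γ i ^ (a i.succ)) * ∏ i, γ i ^ (b i.succ) := by
    rw [← Finset.prod_mul_distrib]
    exact Finset.prod_congr rfl fun i _ => by rw [Pi.add_apply, zpow_add₀ (hγ i)]
  rw [h1]
  ring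

lemma pt_ne {M : Type} [Field M] {r : ℕ} {γ : Fin r → M} {β : M} (hγ : ∀ i, γ i ≠ 0)
    (hβ : β ≠ 0) (a : Fin (r + 1) → ℤ) : pt γ β a ≠ 0 := by
  unfold pt
  exact mul_ne_zero (zpow_ne_zero _ hβ) (Finset.prod_ne_zero_iff.2 fun i _ => zpow_ne_zero _ (hγ i))

/-- the restriction of an automorphism to the cyclotomic field -/
noncomputable def resC {m : ℕ} (hm : 0 < m) (τ : Om ≃ₐ[ℚ] Om) : CY m ≃+* CY m where
  toFun z := ⟨τ z, normal_CY hm (CY m) le_rfl τ z z.2⟩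
  invFun z := ⟨τ.symm z, normal_CY hm (CY m) le_rfl τ.symm z z.2⟩
  left_inv z := Subtype.ext (τ.symm_apply_apply _)
  right_inv z := Subtype.ext (τ.apply_symm_apply _)
  map_mul' x y := Subtype.ext (map_mul τ _ _)
  map_add' x y := Subtype.ext (map_add τ _ _)

lemma exists_prim {m n : ℕ} (hn : 0 < n) (hnm : n ∣ m) : ∃ ζ : CY m, IsPrimitiveRoot ζ n := by
  haveI : NeZero n := ⟨hn.ne'⟩
  haveI : NeZero (n : Om) := ⟨by exact_mod_cast hn.ne'⟩
  obtain ⟨z, hz⟩ := HasEnoughRootsOfUnity.exists_primitiveRoot Om n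
  have h1 : z ^ m = 1 := by
    obtain ⟨e, rfl⟩ := hnm
    rw [pow_mul, hz.pow_eq_one, one_pow]
  have h2 : z ∈ CY m := IntermediateField.subset_adjoin _ _ h1
  exact ⟨⟨z, h2⟩, IsPrimitiveRoot.of_map_of_injective (f := (CY m).val) hz
    (CY m).val.injective⟩

theorem pf_RNKG (hSFTM : Pool.Agent.H29.LG.T_SFTM) (hRLQ : T_RLQ) (hTOR : T_TOR)
    (hNRV : T_NRV) (hHB : Pool.Agent.H24.RD.T_HB) : T_RNKG := by
  classical
  intro r a N θ β g m₃ d hM hN hθ hβ hg hnot hm hX s t pr Φ ht hΦ0 hp0 hc hlt lam H ξ hlam hH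
    Q ρ σ hQ hσ hprQ hρ S hS hcard
  have hAlg : Algebra.IsAlgebraic ℚ Om := alg_Om
  obtain ⟨b1, b2, b3, b4, b5, b6, b7⟩ := hHB Om
  have hT0 : ∀ i, θ i ≠ 0 := by
    intro i h0
    have h1 := hθ i
    rw [h0, zero_pow (hN i).ne'] at h1
    exact hM.1 i ((map_eq_zero _).1 h1.symm)
  -- the relation
  obtain ⟨f0, hf0, hf0S, hf0e⟩ := hRLQ r a N θ β m₃ d hN hM.1 hθ hβ hm hX S hcard
  have hNm := (hNRV r lam H ξ hlam hH).1
  -- the primes and the exponents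
  obtain ⟨pr', hpr'⟩ : ∃ pr' : ℕ → ℕ, ∀ c, pr' c = if c = 0 then 2 else pr c := ⟨_, fun _ => rfl⟩
  obtain ⟨ex, hex⟩ : ∃ ex : ℕ → ℕ, ∀ c, ex c = if c = 0 then 0 else 1 := ⟨_, fun _ => rfl⟩
  have hp0' : pr' 0 ^ ex 0 = 1 := by
    rw [hex 0, if_pos rfl, pow_zero]
  have hpc : ∀ c, 1 ≤ c → pr' c ^ ex c = pr c := by
    intro c h
    rw [hex c, hpr' c, if_neg (by omega), if_neg (by omega), pow_one]
  have hpq : ∀ c, c ≤ s → pr' c ^ ex c = pr c := by
    intro c _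
    rcases Nat.eq_zero_or_pos c with h0 | h0
    · rw [h0, hp0', hp0]
    · exact hpc c h0
  have hζ : ∀ c, ∃ ζ : CY m₃, c ≤ s → IsPrimitiveRoot ζ (pr' c ^ ex c) := by
    intro c
    by_cases h : c ≤ s
    · rcases Nat.eq_zero_or_pos c with h0 | h0
      · refine ⟨1, fun _ => ?_⟩
        rw [h0, hp0']
        exact IsPrimitiveRoot.one
      · obtain ⟨z, hz⟩ := exists_prim (hc c h0 h).1.pos (hc c h0 h).2.2
        refine ⟨z, fun _ => ?_⟩
        rw [hpc c h0]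
        exact hz
    · exact ⟨1, fun h' => absurd h' h⟩
  choose ζ hζ using hζ
  have hKalg : Algebra.IsAlgebraic (CY m₃) Om := Algebra.IsAlgebraic.tower_top (K := ℚ) (CY m₃)
  have hKcl : IsAlgClosure (CY m₃) Om := ⟨inferInstance, hKalg⟩
  have hKnor : Normal (CY m₃) Om := IsAlgClosure.normal (CY m₃) Om
  -- heights
  have hheight : ∀ c b, absLogHeight₁ (((Φ c).symm : Om ≃+* Om) ((pt θ β b) ^ (pr' c ^ ex c))) =
      ((pr' c ^ ex c : ℕ) : ℝ) * absLogHeight₁ (pt θ β b) := by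
    intro c b
    rw [b6, b4]
  have hconj : ∀ (c₁ c₂ : ℕ) (b : Fin (r + 1) → ℤ), c₁ < c₂ → c₂ ≤ s → b ≠ 0 →
      aeval (((Φ c₂).symm : Om ≃+* Om) ((pt θ β b) ^ (pr' c₂ ^ ex c₂)))
        (minpoly (CY m₃)
          (((Φ c₁).symm : Om ≃+* Om) ((pt θ β b) ^ (pr' c₁ ^ ex c₁)))) ≠ 0 := by
    intro c₁ c₂ b hc12 hc2 hb h0
    have hint : IsIntegral (CY m₃)
        (((Φ c₁).symm : Om ≃+* Om) ((pt θ β b) ^ (pr' c₁ ^ ex c₁))) :=
      (Algebra.IsAlgebraic.isAlgebraic _).isIntegral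
    obtain ⟨τ, hτ⟩ := (isConjRoot_of_aeval_eq_zero hint h0).exists_algEquiv
    have e1 := b6 (τ : Om ≃+* Om) (((Φ c₂).symm : Om ≃+* Om) ((pt θ β b) ^ (pr' c₂ ^ ex c₂)))
    have e2 : (τ : Om ≃+* Om) (((Φ c₂).symm : Om ≃+* Om) ((pt θ β b) ^ (pr' c₂ ^ ex c₂))) =
        ((Φ c₁).symm : Om ≃+* Om) ((pt θ β b) ^ (pr' c₁ ^ ex c₁)) := hτ
    rw [e2, hheight, hheight] at e1
    have e3 : pr' c₁ ^ ex c₁ < pr' c₂ ^ ex c₂ := by
      rw [hpc c₂ (by omega)]
      rcases Nat.eq_zero_or_pos c₁ with h | h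
      · rw [h, hp0']
        have := (hc c₂ (by omega) hc2).2.1
        omega
      · rw [hpc c₁ h]
        exact hlt c₁ c₂ h hc12 hc2
    have e4 : ((pr' c₁ ^ ex c₁ : ℕ) : ℝ) < ((pr' c₂ ^ ex c₂ : ℕ) : ℝ) := by
      exact_mod_cast e3
    have e5 : absLogHeight₁ (pt θ β b) = 0 := by
      by_contra hne
      have e6 := mul_right_cancel₀ hne e1
      linarith
    obtain ⟨j, hj, hj1⟩ := b7 _ (pt_ne hT0 hβ b) e5
    exact hb (hTOR r a N θ β g hM hN hθ hβ hg hnot b j hj hj1)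
  have hyPt : IsPt (pt θ β) := ⟨pt_zero θ β, fun a b => pt_add hT0 hβ a b⟩
  obtain ⟨R, d0, r0, nn, hinj, hnn, hr0, hd0, hR, hCols⟩ := hSFTM (CY m₃) Om (r + 1) s t ht pr'
    ex Q ζ (fun c => ((Φ c).symm : Om ≃+* Om)) (fun c => resC hm (Φ c).symm)
    (fun c h => by
      refine ⟨?_, hζ c h, ?_⟩
      · rcases Nat.eq_zero_or_pos c with h0 | h0
        · rw [hpr' c, if_pos h0]
          exact Nat.prime_two
        · rw [hpr' c, if_neg (by omega)]
          exact (hc c h0 h).1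
      · have e1 : ((pr' c : ℝ)) ^ ex c = ((pr' c ^ ex c : ℕ) : ℝ) := by push_cast; rfl
        rw [e1, hpq c h]
        rcases Nat.eq_zero_or_pos c with h0 | h0
        · rw [h0, hp0]
          exact_mod_cast hQ
        · exact hprQ c h0 h)
    (fun c₁ c₂ h12 h2' => by
      rw [hpc c₂ (by omega)]
      rcases Nat.eq_zero_or_pos c₁ with h | h
      · rw [h, hp0']
        have := (hc c₂ (by omega) h2').2.1
        omega
      · rw [hpc c₁ h]
        exact hlt c₁ c₂ h h12 h2')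
    (by rw [hex 0, if_pos rfl])
    (fun c h h' => by
      rw [hpc c h]
      exact (hc c h h').2.1)
    (fun c z => rfl)
    (fun z => by
      show (Φ 0).symm z = z
      rw [AlgEquiv.symm_apply_eq, hΦ0])
    (pt θ β) hyPt (nrmV r lam H ξ) hNm σ ρ hσ
    (by
      refine le_trans (le_of_eq ?_) hρ
      push_cast
      ring) ⟨f0, hf0, fun b hb => hS b (hf0S b hb), hf0e⟩ hconj
  -- the columns
  have hfun : ∀ c, c ≤ s → yl ℚ Om Φ pr θ β c =
      fun b => ((Φ c).symm : Om ≃+* Om) ((pt θ β b) ^ (pr' c ^ ex c)) := by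
    intro c h
    funext b
    unfold yl
    rw [map_pow, hpq c h]
    rfl
  have hCols' : Cols (CY m₃) t s d0 (yl ℚ Om Φ pr θ β) nn := by
    have e0 := hfun 0 (Nat.zero_le s)
    constructor
    · intro z hz hz'
      rw [e0] at hz
      refine hCols.inj z hz fun c h h' => ?_
      have e1 := hz' c h h'
      rw [hfun c h'] at e1
      exact e1
    · rw [e0]
      exact hCols.dim
  exact ⟨R, d0, r0, nn, hr0, hd0, hR, hinj, hnn, hCols'⟩

end Pool.Agent.H79.RGD
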