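import Pool.Agent.H79.RGD.FROG
import Pool.Agent.H88.SX.HTS

/-!
# Board rgd_modules, row HTV: the height of a family of points
-/

set_option autoImplicit false

open NumberField Height
open Pool.Agent.H24.RD Pool.Agent.H29.SX Pool.Agent.H29.LG Pool.Agent.H64.GG

namespace Pool.Agent.H79.RGD

theorem pf_HTV (hHA : Pool.Agent.H24.RD.T_HA) (hHB : Pool.Agent.H24.RD.T_HB)
    (hNRV : T_NRV) : T_HTV := by
  intro M _ r θ β g k x H hβ hθ hg hk hgk hlam hH ρ T b _ hρ hb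
  have hAlg : Algebra.IsAlgebraic ℚ Om := alg_Om
  obtain ⟨b1, b2, b3, b4, b5, b6, b7⟩ := hHB Om
  set lam : ℝ := absLogHeight₁ ((β : Om) * g) with hl
  have hkr : (0 : ℝ) < k := by exact_mod_cast hk
  have hn := (hNRV r lam H (fun i => (x i : ℝ) / k) hlam fun i => (hH i).1).2
  have hD : (0 : ℝ) < Module.finrank ℚ M := by exact_mod_cast Module.finrank_pos
  have hhA : ∀ y : M, logHeight₁ y = Module.finrank ℚ M * absLogHeight₁ (y : Om) := by
    intro y
    have h1 : absLogHeight₁ (y : Om) = logHeight₁ y / (Module.finrank ℚ M : ℝ) := hHA M Om y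
    rw [h1]
    field_simp
  -- the auxiliary number
  set A : M := β ^ k * ∏ i, θ i ^ x i with hA
  have hA0 : A ≠ 0 := mul_ne_zero (pow_ne_zero _ hβ)
    (Finset.prod_ne_zero_iff.2 fun i _ => zpow_ne_zero _ (hθ i))
  have hAO : (A : Om) = ((β : Om) * g) ^ k := by
    rw [hA, mul_pow, hgk]
    push_cast
    rfl
  have hAh : logHeight₁ A = Module.finrank ℚ M * (k * lam) := by
    rw [hhA, hAO, b4]
  have hpw : (fun j => pt θ β (b j)) ^ k = (fun j => A ^ (b j 0)) *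
      (fun j => ∏ i, θ i ^ ((k : ℤ) * b j i.succ - b j 0 * x i)) := by
    funext j
    rw [Pi.pow_apply, Pi.mul_apply]
    unfold pt
    rw [hA, mul_zpow, mul_assoc, ← Finset.prod_zpow, ← Finset.prod_mul_distrib, mul_pow,
      ← Finset.prod_pow]
    congr 1
    · rw [← zpow_natCast, ← zpow_mul, ← zpow_natCast, ← zpow_mul, mul_comm]
    · refine Finset.prod_congr rfl fun i _ => ?_
      rw [← zpow_natCast, ← zpow_mul, ← zpow_mul, ← zpow_add₀ (hθ i)]
      congr 1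
      ring
  have h1 : (k : ℝ) * logHeight (fun j => pt θ β (b j)) ≤
      2 * ((⌊ρ / lam⌋₊ : ℕ) : ℝ) * logHeight₁ A +
        ∑ i, 2 * ((⌊k * (ρ / H i)⌋₊ : ℕ) : ℝ) * logHeight₁ (θ i) := by
    rw [← logHeight_pow, hpw]
    refine (logHeight_mul_le _ _).trans (add_le_add ?_ ?_)
    · refine Pool.Agent.H88.SX.ht_zpow A hA0 _ _ fun j => ?_
      have h3 : (((b j 0).natAbs : ℕ) : ℝ) ≤ ρ / lam := by
        rw [Nat.cast_natAbs, Int.cast_abs]
        exact (hn ρ (b j) (hb j)).1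
      have h4 := Nat.le_floor h3
      rw [Int.abs_eq_natAbs]
      exact_mod_cast h4
    · refine (Pool.Agent.H88.SX.ht_prod _ _).trans (Finset.sum_le_sum fun i _ => ?_)
      refine Pool.Agent.H88.SX.ht_zpow (θ i) (hθ i) _ _ fun j => ?_
      have h3 : ((((k : ℤ) * b j i.succ - b j 0 * x i).natAbs : ℕ) : ℝ) ≤ k * (ρ / H i) := by
        rw [Nat.cast_natAbs, Int.cast_abs]
        push_cast
        have h4 : (k : ℝ) * b j i.succ - b j 0 * x i =
            k * ((b j i.succ : ℝ) - b j 0 * (x i / k)) := by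
          field_simp
        rw [h4, abs_mul, abs_of_pos hkr]
        exact mul_le_mul_of_nonneg_left ((hn ρ (b j) (hb j)).2 i) hkr.le
      have h4 := Nat.le_floor h3
      rw [Int.abs_eq_natAbs]
      exact_mod_cast h4
  have h2 : 2 * ((⌊ρ / lam⌋₊ : ℕ) : ℝ) * logHeight₁ A ≤ 2 * (k * ρ * Module.finrank ℚ M) := by
    have h3 : ((⌊ρ / lam⌋₊ : ℕ) : ℝ) ≤ ρ / lam := Nat.floor_le (div_nonneg hρ hlam.le)
    have h4 : ((⌊ρ / lam⌋₊ : ℕ) : ℝ) * lam ≤ ρ := (le_div_iff₀ hlam).1 h3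
    rw [hAh]
    calc 2 * ((⌊ρ / lam⌋₊ : ℕ) : ℝ) * (Module.finrank ℚ M * (k * lam)) =
        2 * (k * (((⌊ρ / lam⌋₊ : ℕ) : ℝ) * lam) * Module.finrank ℚ M) := by ring
      _ ≤ 2 * (k * ρ * Module.finrank ℚ M) := by gcongr
  have h3 : ∑ i, 2 * ((⌊k * (ρ / H i)⌋₊ : ℕ) : ℝ) * logHeight₁ (θ i) ≤
      r * (2 * (k * ρ * Module.finrank ℚ M)) := by
    have h4 : ∀ i ∈ (Finset.univ : Finset (Fin r)),
        2 * ((⌊k * (ρ / H i)⌋₊ : ℕ) : ℝ) * logHeight₁ (θ i) ≤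
        2 * (k * ρ * Module.finrank ℚ M) := by
      intro i _
      have hHi := (hH i).1
      have h5 : ((⌊k * (ρ / H i)⌋₊ : ℕ) : ℝ) ≤ k * (ρ / H i) :=
        Nat.floor_le (mul_nonneg hkr.le (div_nonneg hρ hHi.le))
      have h6 : ((⌊k * (ρ / H i)⌋₊ : ℕ) : ℝ) * H i ≤ k * ρ := by
        calc ((⌊k * (ρ / H i)⌋₊ : ℕ) : ℝ) * H i ≤ k * (ρ / H i) * H i := by gcongr
          _ = k * ρ := by field_simp
      rw [hhA]
      calc 2 * ((⌊k * (ρ / H i)⌋₊ : ℕ) : ℝ) * (Module.finrank ℚ M * absLogHeight₁ (θ i : Om)) ≤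
          2 * ((⌊k * (ρ / H i)⌋₊ : ℕ) : ℝ) * (Module.finrank ℚ M * H i) := by
            have := (hH i).2
            gcongr
        _ = 2 * ((((⌊k * (ρ / H i)⌋₊ : ℕ) : ℝ) * H i) * Module.finrank ℚ M) := by ring
        _ ≤ 2 * (k * ρ * Module.finrank ℚ M) := by gcongr
    refine (Finset.sum_le_sum h4).trans (le_of_eq ?_)
    rw [Finset.sum_const, Finset.card_univ, Fintype.card_fin, nsmul_eq_mul]
  have h6 : (k : ℝ) * logHeight (fun j => pt θ β (b j)) ≤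
      k * (2 * (r + 1) * ρ * Module.finrank ℚ M) := by
    calc (k : ℝ) * logHeight (fun j => pt θ β (b j)) ≤ _ := h1
      _ ≤ 2 * (k * ρ * Module.finrank ℚ M) + r * (2 * (k * ρ * Module.finrank ℚ M)) :=
        add_le_add h2 h3
      _ = _ := by ring
  exact le_of_mul_le_mul_left h6 hkr

end Pool.Agent.H79.RGD
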